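import Pool.Agent.Y718.SA3
import Pool.Agent.Y720.WL.Cy2

/-!
# Project CL (helper718): exact statements of the jobs
-/

set_option autoImplicit false

open MvPolynomial Pool.Agent.Y718 Pool.Agent.Y718.SF

namespace Pool.Agent.Y718.CL

/-- FNT: a closed subset of affine space over the complex numbers without tangent vectors is
finite. -/
def S_FNT : Prop := ∀ (κ : Type) [Fintype κ] (S : Set (MvPolynomial κ ℂ)),
  (∀ x : κ → ℂ, (∀ P ∈ S, eval x P = 0) → ∀ v : κ → ℂ,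
    (∀ P ∈ S, ∑ i, eval x (pderiv i P) * v i = 0) → v = 0) →
  {x : κ → ℂ | ∀ P ∈ S, eval x P = 0}.Finite

/-- LOC: the same for locally closed subsets. -/
def S_LOC : Prop := ∀ (κ : Type) [Fintype κ] (S G : Set (MvPolynomial κ ℂ)),
  (∀ x : κ → ℂ, (∀ P ∈ S, eval x P = 0) → (∃ g ∈ G, eval x g ≠ 0) → ∀ v : κ → ℂ,
    (∀ P ∈ S, ∑ i, eval x (pderiv i P) * v i = 0) → v = 0) →
  {x : κ → ℂ | (∀ P ∈ S, eval x P = 0) ∧ ∃ g ∈ G, eval x g ≠ 0}.Finite

/-- EMB: the field of the p-adic numbers can be embedded in the field of the complex numbers. -/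
def S_EMB : Prop := ∀ (p : ℕ) [Fact p.Prime], Nonempty (ℚ_[p] →+* ℂ)

/-- BAI: countably many nonzero polynomials have a common point where they do not vanish. -/
def S_BAI : Prop := ∀ (p : ℕ) [Fact p.Prime] (κ : Type) [Fintype κ]
  (P : ℕ → MvPolynomial κ ℚ_[p]), (∀ k, P k ≠ 0) → ∃ e : κ → ℚ_[p], ∀ k, eval e (P k) ≠ 0

/-- UFD: the doubling sequence at a generic pole, with common factors. -/
def S_UFD : Prop := ∀ (F A : Type) [Field F] [CharZero F] [CommRing A] [IsDomain A]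
  [UniqueFactorizationMonoid A] [Algebra F A] (a b c B T u k : A), B ≠ 0 → ¬ B ∣ T → IsUnit k →
  ∃ N D g : A, g ≠ 0 ∧ T ^ 2 - B ^ 2 * u = g ^ 2 * N ∧ k * B ^ 2 = g ^ 2 * D ∧
    (∀ n, (Pool.Agent.Y720.MZ.itd a b c (N, D) n).2 ≠ 0) ∧
    ∀ i j, i ≠ j → (Pool.Agent.Y720.MZ.itd a b c (N, D) i).1 *
      (Pool.Agent.Y720.MZ.itd a b c (N, D) j).2 -
      (Pool.Agent.Y720.MZ.itd a b c (N, D) j).1 *
      (Pool.Agent.Y720.MZ.itd a b c (N, D) i).2 ≠ 0

/-- SMT: a smooth hypersurface is smooth over the complex numbers, for each embedding. -/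
def S_SMT : Prop := ∀ (K : Type) [Field K] [CharZero K] (m : ℕ) (F : MvPolynomial (Fin m) K),
  (∀ y : Fin m → AlgebraicClosure K, (∀ i, aeval y (pderiv i F) = 0) → y = 0) →
  ∀ φ : K →+* ℂ, Smooth (MvPolynomial.map φ F)

/-- SEP: a separable restriction of a smooth quartic form to a line through a point, over the
complex numbers (`Pool.Agent.Y718.X.exists_sep` in `SA3.lean` is the same over the rational
numbers). -/
def S_SEP : Prop := ∀ (n : ℕ) (F : MvPolynomial (Fin (n + 1)) ℂ), F.IsHomogeneous 4 → Smooth F →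
  1 ≤ n → ∀ Z : Fin (n + 1) → ℂ, eval Z F ≠ 0 →
  ∃ V : Fin (n + 1) → ℂ, Pool.Agent.Y718.X.Db (lg F Z V) ≠ 0

/-- the first exceptional set, over the complex numbers -/
def E0 {n : ℕ} (F : MvPolynomial (Fin (n + 1)) ℂ) (p : Fin (n + 1)) : Set (Fin n → ℂ) :=
  {z | eval (ic p 1 z) F ≠ 0 ∧ ∀ U : Fin (n + 1) → ℂ, gB (lg F (ic p 1 z) U) = 0}

/-- the second exceptional set, over the complex numbers -/
def E1 {n : ℕ} (F : MvPolynomial (Fin (n + 1)) ℂ) (p : Fin (n + 1)) :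
    Set (Fin n ⊕ Fin (n + 1) → ℂ) :=
  {w | eval (ic p 1 (fun j => w (Sum.inl j))) F ≠ 0 ∧
    (∃ U : Fin (n + 1) → ℂ, gB (lg F (ic p 1 (fun j => w (Sum.inl j))) U) ≠ 0) ∧
    ∀ U : Fin (n + 1) → ℂ, gT (lg F (ic p 1 (fun j => w (Sum.inl j))) U) =
      (∑ i, w (Sum.inr i) * U i) * gB (lg F (ic p 1 (fun j => w (Sum.inl j))) U)}

/-- EX0: finiteness of the first exceptional set. -/
def S_EX0 : Prop := ∀ (n : ℕ) (F : MvPolynomial (Fin (n + 1)) ℂ), F.IsHomogeneous 4 → Smooth F →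
  ∀ p : Fin (n + 1), (E0 F p).Finite

/-- EX1: finiteness of the second exceptional set. -/
def S_EX1 : Prop := ∀ (n : ℕ) (F : MvPolynomial (Fin (n + 1)) ℂ), F.IsHomogeneous 4 → Smooth F →
  2 ≤ n → ∀ p : Fin (n + 1), (E1 F p).Finite

/-- LIN: a divisor of degree three of a form of degree four leaves a linear form. -/
def S_LIN : Prop := ∀ (F : Type) [Field F] (κ : Type) [Fintype κ] (B T : MvPolynomial κ F),
  B.IsHomogeneous 3 → T.IsHomogeneous 4 → B ∣ T → ∃ l : κ → F,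
    ∀ U : κ → F, eval U T = (∑ i, l i * U i) * eval U B

end Pool.Agent.Y718.CL
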