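import Pool.Agent.Y718.SA3
import Pool.Agent.Y718.CL.Stm

/-!
# A separable restriction of a smooth quartic form to a line through a given point, over the
# complex numbers
-/

set_option autoImplicit false
set_option linter.unusedSectionVars false
set_option linter.unusedVariables false
set_option linter.unusedSimpArgs false

open Set Filter Topology Pool.Agent.Y720.MZ

namespace Pool.Agent.Y718.CL.Sep

open Pool.Agent.Y718 Pool.Agent.Y718.SF Pool.Agent.Y718.X Pool.Agent.Y718.CL

variable {n : ℕ}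

/-- polynomials in the direction -/
abbrev AA (n : ℕ) : Type := MvPolynomial (Fin (n + 1)) ℂ

/-- **a separable line through a point** -/
theorem exists_sep {F : MvPolynomial (Fin (n + 1)) ℂ} (hF : F.IsHomogeneous 4) (hsm : Smooth F)
    (hn : 1 ≤ n) {Z : Fin (n + 1) → ℂ} (hZ : MvPolynomial.eval Z F ≠ 0) :
    ∃ V : Fin (n + 1) → ℂ, Db (lg F V Z) ≠ 0 := by
  by_contra hcon
  push Not at hcon
  set f0 : Polynomial (AA n) := lg (MvPolynomial.map (MvPolynomial.C : ℂ →+* (AA n)) F)
    (fun i => (MvPolynomial.X i : (AA n))) (fun i => (MvPolynomial.C (Z i) : (AA n))) with hf0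
  have hev : ∀ V : Fin (n + 1) → ℂ, f0.map (MvPolynomial.eval V) = lg F V Z := by
    intro V
    rw [hf0, ← lg_map, MvPolynomial.map_map]
    have e1 : (MvPolynomial.eval V).comp (MvPolynomial.C : ℂ →+* (AA n)) = RingHom.id ℂ := by
      ext x
      simp
    rw [e1, MvPolynomial.map_id]
    simp
  have hD0 : Db f0 = 0 := by
    apply MvPolynomial.funext
    intro V
    rw [← Db_map, hev, hcon, map_zero]
  set e := MvPolynomial.eval Z F with he
  have hc4 : f0.coeff 4 = MvPolynomial.C e := by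
    apply MvPolynomial.funext
    intro V
    rw [← Polynomial.coeff_map, hev, coeff_four hF, MvPolynomial.eval_C]
  have hdeg : f0.natDegree ≤ 4 := (lg_natDegree _ _ _).trans (hF.map _).totalDegree_le
  -- the monic polynomial
  set f : Polynomial (AA n) := Polynomial.C (MvPolynomial.C e⁻¹) * f0 with hf
  have hfd : f.natDegree ≤ 4 := (Polynomial.natDegree_C_mul_le _ _).trans hdeg
  have hf4 : f.coeff 4 = 1 := by
    rw [hf, Polynomial.coeff_C_mul, hc4, ← map_mul, inv_mul_cancel₀ hZ, map_one]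
  have hmon : f.Monic := Polynomial.monic_of_natDegree_le_of_coeff_eq_one 4 hfd hf4
  have hDf : Db f = 0 := by
    have : Db f = (MvPolynomial.C e⁻¹ : (AA n)) ^ 6 * Db f0 := by
      rw [Db_dc, Db_dc, ← dc_smul, hf]
      simp only [Polynomial.coeff_C_mul]
    rw [this, hD0, mul_zero]
  have hns : ¬ (f.map (algebraMap (AA n) (FractionRing (AA n)))).Separable := by
    intro hs
    set φ := algebraMap (AA n) (FractionRing (AA n)) with hφ
    have hd4 : (f.map φ).natDegree = 4 := by
      rw [hmon.natDegree_map]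
      refine le_antisymm hfd ?_
      apply Polynomial.le_natDegree_of_ne_zero
      rw [hf4]
      exact one_ne_zero
    have hq : f.map φ = qpol (φ (f.coeff 0)) (φ (f.coeff 1)) (φ (f.coeff 2)) (φ (f.coeff 3))
        (φ (f.coeff 4)) := by
      ext k
      obtain ⟨a0, a1, a2, a3, a4⟩ := qpol_coeff (φ (f.coeff 0)) (φ (f.coeff 1)) (φ (f.coeff 2))
        (φ (f.coeff 3)) (φ (f.coeff 4))
      rw [Polynomial.coeff_map]
      rcases lt_or_ge k 5 with hk | hk
      · interval_cases k
        · rw [a0]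
        · rw [a1]
        · rw [a2]
        · rw [a3]
        · rw [a4]
      · rw [Polynomial.coeff_eq_zero_of_natDegree_lt (by omega), map_zero]
        have : (qpol (φ (f.coeff 0)) (φ (f.coeff 1)) (φ (f.coeff 2)) (φ (f.coeff 3))
            (φ (f.coeff 4))).natDegree ≤ 4 := by
          unfold qpol
          compute_degree
        rw [Polynomial.coeff_eq_zero_of_natDegree_lt (by omega)]
    have h1 := dc_ne_zero (q₀ := φ (f.coeff 0)) (q₁ := φ (f.coeff 1)) (q₂ := φ (f.coeff 2))
      (q₃ := φ (f.coeff 3)) (q₄ := φ (f.coeff 4)) (by rw [← hq]; exact hs) (by rw [← hq, hd4]; norm_num)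
    apply h1
    rw [map_dc, ← Db_dc, hDf, map_zero]
  obtain ⟨g, h, hgm, hgd, hfac⟩ := rep_factor hmon hns
  have hf0' : f0 = Polynomial.C (MvPolynomial.C e) * (g * (g * h)) := by
    rw [← hfac, hf, ← mul_assoc, ← map_mul, ← map_mul, mul_inv_cancel₀ hZ, map_one, map_one, one_mul]
  -- the complex point
  have hZ0 : ∃ i, Z i ≠ 0 := by
    by_contra hc
    push Not at hc
    have : Z = (0 : ℂ) • Z := by
      funext i
      simp [hc i]
    apply hZ
    rw [he, this, hom_smul hF]
    simp
  obtain ⟨i, hi⟩ := hZ0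
  have : Nontrivial (Fin (n + 1)) := Fin.nontrivial_iff_two_le.mpr (by omega)
  obtain ⟨j, hj⟩ := exists_ne i
  set v₀ : Fin (n + 1) → ℂ := Pi.single j 1 with hv₀
  set Zc : Fin (n + 1) → ℂ := Z with hZc
  have hP0 : ∀ s : ℂ, v₀ + s • Zc ≠ 0 := by
    intro s h0
    have h1 := congrFun h0 i
    simp only [Pi.add_apply, Pi.smul_apply, hv₀, hZc, Pi.single_eq_of_ne hj.symm, zero_add,
      Pi.zero_apply, smul_eq_mul, mul_eq_zero] at h1
    have hs : s = 0 := h1.resolve_right hi
    have h2 := congrFun h0 j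
    simp [hs, hv₀] at h2
  let φ : (Fin (n + 1) → ℂ) → (AA n) →+* ℂ := fun v => MvPolynomial.eval v
  have hfc : ∀ v, f0.map (φ v) = lg F v Zc := by
    intro v
    rw [hf0, ← lg_map, MvPolynomial.map_map]
    have e1 : (φ v).comp (MvPolynomial.C : ℂ →+* (AA n)) = RingHom.id ℂ := by
      ext x
      simp [φ]
    rw [e1, MvPolynomial.map_id]
    congr 1
    · funext k
      simp [φ]
    · funext k
      simp [φ, hZc]
  obtain ⟨s, hs⟩ := IsAlgClosed.exists_root (g.map (φ v₀)) (by
    rw [Polynomial.degree_eq_natDegree (hgm.map _).ne_zero, hgm.natDegree_map]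
    exact_mod_cast hgd.ne')
  let T : Polynomial (AA n) → MvPolynomial (Fin (n + 1)) ℂ := fun q =>
    Polynomial.eval₂ (MvPolynomial.map (RingHom.id ℂ)) (MvPolynomial.C s) q
  have hT : ∀ (q : Polynomial (AA n)) (v : Fin (n + 1) → ℂ),
      MvPolynomial.eval v (T q) = (q.map (φ v)).eval s := by
    intro q v
    have e1 : (MvPolynomial.eval v).comp (MvPolynomial.map (RingHom.id ℂ)) = φ v := by
      apply MvPolynomial.ringHom_ext
      · intro x
        simp [φ]
      · intro k
        simp [φ]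
    simp only [T]
    rw [Polynomial.hom_eval₂, e1, MvPolynomial.eval_C, Polynomial.eval_map]
  have hroot : MvPolynomial.eval v₀ (T g) = 0 := by
    rw [hT]
    exact hs
  apply hP0 s
  apply hsm
  intro k
  set w : Fin (n + 1) → ℂ := Pi.single k 1 with hw
  rw [← dd_single k F, ← hw]
  have h1 := eval_deriv F (v₀ + s • Zc) w
  have h2 := eval_deriv (T g) v₀ w
  have h3 := eval_deriv (T h) v₀ w
  have h4 := (h2.mul (h2.mul h3)).const_mul e
  have h5 : (fun t : ℂ => MvPolynomial.eval (v₀ + s • Zc + t • w) F) = fun t : ℂ =>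
      e * (MvPolynomial.eval (v₀ + t • w) (T g) * (MvPolynomial.eval (v₀ + t • w) (T g) *
        MvPolynomial.eval (v₀ + t • w) (T h))) := by
    funext t
    have e1 : v₀ + s • Zc + t • w = (v₀ + t • w) + s • Zc := by abel
    rw [e1, ← lg_eval, ← hfc, hf0', hT, hT]
    simp [φ]
  rw [h5] at h1
  have h6 := h1.unique h4
  rw [h6]
  simp [hroot]


theorem sep : S_SEP := by
  intro n F hF hsm hn Z hZ
  obtain ⟨V, hV⟩ := exists_sep hF hsm hn hZ
  refine ⟨V, fun h0 => hV ?_⟩
  have hb := bin hF Z V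
  have hsh : ∀ s : ℂ, (lg F V Z).eval s = (lg F Z V).coeff 4 + (lg F Z V).coeff 3 * s +
      (lg F Z V).coeff 2 * s ^ 2 + (lg F Z V).coeff 1 * s ^ 3 + (lg F Z V).coeff 0 * s ^ 4 := by
    intro s
    have e1 : V + s • Z = s • Z + (1 : ℂ) • V := by
      rw [one_smul]
      abel
    rw [lg_eval, e1, hb]
    ring
  obtain ⟨k0, k1, k2, k3, k4⟩ := coeff_of_eval hsh
  rw [Db_dc, k0, k1, k2, k3, k4, dc_rev, ← Db_dc]
  exact h0

end Pool.Agent.Y718.CL.Sep
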