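import Pool.Agent.Y718.CL.Op
import Pool.Agent.Y718.CL.Stm

/-!
# A direction in which the difference has infinite order
-/

set_option autoImplicit false
set_option linter.unusedVariables false
set_option linter.unusedSectionVars false

open Filter Topology Pool.Agent.Y720.MZ WeierstrassCurve Pool.Agent.Y718.SF

namespace Pool.Agent.Y718.CL

/-- the abscissa of the double of the difference -/
lemma dbl_id {F : Type*} [Field F] [CharZero F] {y q1 q2 q3 q4 : F} (hy : y ≠ 0)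
    (hB : q1 ^ 3 - 4 * y ^ 2 * q1 * q2 + 8 * (y ^ 2) ^ 2 * q3 ≠ 0) :
    2 * ys y q1 q2 q3 ≠ 0 ∧
    (((3 * xs y q1 q2 ^ 2 + 2 * q2 * xs y q1 q2 + rb y q1 q3 q4) / (2 * ys y q1 q2 q3)) ^ 2 - q2 -
      xs y q1 q2 - xs y q1 q2) *
      (16 * y ^ 2 * (q1 ^ 3 - 4 * y ^ 2 * q1 * q2 + 8 * (y ^ 2) ^ 2 * q3) ^ 2) =
    (((q1 ^ 2 - 4 * y ^ 2 * q2) ^ 2 - 64 * (y ^ 2) ^ 3 * q4) +
        2 * q1 * (q1 ^ 3 - 4 * y ^ 2 * q1 * q2 + 8 * (y ^ 2) ^ 2 * q3)) ^ 2 -
      (q1 ^ 3 - 4 * y ^ 2 * q1 * q2 + 8 * (y ^ 2) ^ 2 * q3) ^ 2 *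
        (8 * (q1 ^ 2 - 2 * y ^ 2 * q2)) := by
  set B := q1 ^ 3 - 4 * y ^ 2 * q1 * q2 + 8 * (y ^ 2) ^ 2 * q3 with hBd
  set T := (q1 ^ 2 - 4 * y ^ 2 * q2) ^ 2 - 64 * (y ^ 2) ^ 3 * q4 with hTd
  have e1 : 2 * ys y q1 q2 q3 = B / (4 * y ^ 3) := by
    rw [ys, xs, hBd]
    field_simp
    ring
  have e2 : 3 * xs y q1 q2 ^ 2 + 2 * q2 * xs y q1 q2 + rb y q1 q3 q4 =
      (T + 2 * q1 * B) / (16 * y ^ 4) := by
    rw [xs, rb, hBd, hTd]
    field_simp
    ring
  have e3 : (3 * xs y q1 q2 ^ 2 + 2 * q2 * xs y q1 q2 + rb y q1 q3 q4) / (2 * ys y q1 q2 q3) =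
      (T + 2 * q1 * B) / (4 * y * B) := by
    rw [e1, e2]
    field_simp
    ring
  refine ⟨?_, ?_⟩
  · rw [e1]
    exact div_ne_zero hB (mul_ne_zero (by norm_num) (pow_ne_zero 3 hy))
  · rw [e3, xs]
    field_simp
    ring


section main

variable {p : ℕ} [Fact p.Prime] {α : Type} [Fintype α]

lemma rst_eq_lg {F : Type*} [Field F] [CharZero F] {β : Type*} [Fintype β]
    (f : MvPolynomial β F) (z e : β → F) : rst f z e = lg f z e := rfl

/-- **A direction in which the difference has infinite order.** -/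
theorem exists_io (hU : S_UFD) (hBai : S_BAI) {f : MvPolynomial α ℚ_[p]} {x : α → ℚ_[p]}
    {y : ℚ_[p]} (hP : onX f x y) (hy : y ≠ 0) (Bp Tp : MvPolynomial α ℚ_[p])
    (hB : ∀ e, MvPolynomial.eval e Bp = gB (lg f x e))
    (hT : ∀ e, MvPolynomial.eval e Tp = SF.gT (lg f x e)) (h0 : Bp ≠ 0) (hnd : ¬ Bp ∣ Tp)
    (hTq : ∃ e, Tq f e x ≠ 0) : ∃ e, IOt (th f e x y) := by
  classical
  letI : DecidableEq ℚ_[p] := Classical.decEq _
  -- the coefficients
  have hQ : ∀ k, ∃ Q : MvPolynomial α ℚ_[p], ∀ e, (lg f x e).coeff k = MvPolynomial.eval e Q :=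
    fun k => PKu_coeff f x k
  choose Q hQ using hQ
  have hq0 : ∀ e, (lg f x e).coeff 0 = y ^ 2 := by
    intro e
    rw [c0_eq, hP]
  have hcq : ∀ e (j : Fin 4), cq f x e j = MvPolynomial.eval e (Q ((j : ℕ) + 1)) := fun e j =>
    hQ _ e
  have c0 : ∀ e, cq f x e 0 = MvPolynomial.eval e (Q 1) := fun e => hcq e 0
  have c1 : ∀ e, cq f x e 1 = MvPolynomial.eval e (Q 2) := fun e => hcq e 1
  have c2 : ∀ e, cq f x e 2 = MvPolynomial.eval e (Q 3) := fun e => hcq e 2
  have c3 : ∀ e, cq f x e 3 = MvPolynomial.eval e (Q 4) := fun e => hcq e 3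
  set a : MvPolynomial α ℚ_[p] := Q 2 with ha
  set b : MvPolynomial α ℚ_[p] := Q 1 * Q 3 - MvPolynomial.C (4 * y ^ 2) * Q 4 with hb
  set c : MvPolynomial α ℚ_[p] := Q 1 ^ 2 * Q 4 + MvPolynomial.C (y ^ 2) * Q 3 ^ 2 -
    MvPolynomial.C (4 * y ^ 2) * Q 2 * Q 4 with hc
  set T1 : MvPolynomial α ℚ_[p] := Tp + 2 * Q 1 * Bp with hT1
  set u : MvPolynomial α ℚ_[p] := 8 * (Q 1 ^ 2 - MvPolynomial.C (2 * y ^ 2) * Q 2) with hu
  have hnd1 : ¬ Bp ∣ T1 := by
    intro h
    apply hnd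
    have h1 : Bp ∣ 2 * Q 1 * Bp := Dvd.intro_left _ rfl
    exact (dvd_add_left h1).1 h
  have hk : IsUnit (MvPolynomial.C (16 * y ^ 2) : MvPolynomial α ℚ_[p]) :=
    (isUnit_iff_ne_zero.2 (mul_ne_zero (by norm_num) (pow_ne_zero 2 hy))).map MvPolynomial.C
  obtain ⟨N, D, g, hg0, hN, hD, hd, hij⟩ := hU ℚ_[p] (MvPolynomial α ℚ_[p]) a b c Bp T1 u
    (MvPolynomial.C (16 * y ^ 2)) h0 hnd1 hk
  -- the discriminant
  set Δ : MvPolynomial α ℚ_[p] := dsc a b c with hΔ
  have hTqe : ∀ e, Tq f e x = MvPolynomial.eval e Δ := by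
    intro e
    have h1 := (show y ^ 2 = _ from hP)
    rw [Tq, c0, c1, c2, c3, ← h1, hΔ, ha, hb, hc]
    simp only [dsc, map_sub, map_add, map_mul, map_pow, MvPolynomial.eval_C, map_ofNat]
  have hΔ0 : Δ ≠ 0 := by
    obtain ⟨e, he⟩ := hTq
    intro h
    rw [hTqe, h, map_zero] at he
    exact he rfl
  -- the family
  obtain ⟨e, he⟩ := hBai p α (fun m => (itd a b c (N, D) (Nat.unpair m).1).2 *
    (if (Nat.unpair m).1 = (Nat.unpair m).2 then 1 else
      (itd a b c (N, D) (Nat.unpair m).1).1 * (itd a b c (N, D) (Nat.unpair m).2).2 -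
      (itd a b c (N, D) (Nat.unpair m).2).1 * (itd a b c (N, D) (Nat.unpair m).1).2) *
    (g * Bp * Δ)) (by
      intro m
      refine mul_ne_zero (mul_ne_zero (hd _) ?_) (mul_ne_zero (mul_ne_zero hg0 h0) hΔ0)
      split_ifs with h
      · exact one_ne_zero
      · exact hij _ _ h)
  simp only [map_mul, ne_eq, mul_eq_zero, not_or] at he
  have hge : MvPolynomial.eval e g ≠ 0 := (he 0).2.1.1
  have hBe : MvPolynomial.eval e Bp ≠ 0 := (he 0).2.1.2
  have hΔe : MvPolynomial.eval e Δ ≠ 0 := (he 0).2.2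
  have hite : ∀ i, itd (MvPolynomial.eval e a) (MvPolynomial.eval e b) (MvPolynomial.eval e c)
      (MvPolynomial.eval e N, MvPolynomial.eval e D) i =
      (MvPolynomial.eval e (itd a b c (N, D) i).1, MvPolynomial.eval e (itd a b c (N, D) i).2) :=
    fun i => itd_map (MvPolynomial.eval e) a b c (N, D) i
  have hd' : ∀ i, (itd (MvPolynomial.eval e a) (MvPolynomial.eval e b) (MvPolynomial.eval e c)
      (MvPolynomial.eval e N, MvPolynomial.eval e D) i).2 ≠ 0 := by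
    intro i
    rw [hite]
    have := (he (Nat.pair i i)).1.1
    rwa [Nat.unpair_pair] at this
  have hij' : ∀ i j, i ≠ j → (itd (MvPolynomial.eval e a) (MvPolynomial.eval e b)
      (MvPolynomial.eval e c) (MvPolynomial.eval e N, MvPolynomial.eval e D) i).1 *
      (itd (MvPolynomial.eval e a) (MvPolynomial.eval e b) (MvPolynomial.eval e c)
      (MvPolynomial.eval e N, MvPolynomial.eval e D) j).2 -
      (itd (MvPolynomial.eval e a) (MvPolynomial.eval e b) (MvPolynomial.eval e c)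
      (MvPolynomial.eval e N, MvPolynomial.eval e D) j).1 *
      (itd (MvPolynomial.eval e a) (MvPolynomial.eval e b) (MvPolynomial.eval e c)
      (MvPolynomial.eval e N, MvPolynomial.eval e D) i).2 ≠ 0 := by
    intro i j h
    rw [hite, hite]
    have := (he (Nat.pair i j)).1.2
    rw [Nat.unpair_pair] at this
    dsimp only at this
    rw [if_neg h] at this
    simpa only [map_sub, map_mul] using this
  -- the point
  have eA : tA (th f e x y) = MvPolynomial.eval e a := c1 e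
  have eB : tB (th f e x y) = MvPolynomial.eval e b := by
    rw [hb]
    simp only [tB, th, rb, c0, c2, c3, map_sub, map_mul, MvPolynomial.eval_C]
  have eC : tC (th f e x y) = MvPolynomial.eval e c := by
    rw [hc]
    simp only [tC, th, Pool.Agent.Y720.MZ.rc, c0, c1, c2, c3, map_sub, map_add, map_pow, map_mul, MvPolynomial.eval_C,
      ha]
  have hBv : MvPolynomial.eval e Bp = cq f x e 0 ^ 3 - 4 * y ^ 2 * cq f x e 0 * cq f x e 1 +
      8 * (y ^ 2) ^ 2 * cq f x e 2 := by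
    rw [hB, gB, hq0]
    rfl
  have hTv : MvPolynomial.eval e Tp = (cq f x e 0 ^ 2 - 4 * y ^ 2 * cq f x e 1) ^ 2 -
      64 * (y ^ 2) ^ 3 * cq f x e 3 := by
    rw [hT, SF.gT, hq0]
    rfl
  obtain ⟨k1, k2⟩ := dbl_id (q4 := cq f x e 3) hy (hBv ▸ hBe)
  refine ⟨e, ?_, ?_⟩
  · rw [eA, eB, eC]
    have e9 : MvPolynomial.eval e Δ = dsc (MvPolynomial.eval e a) (MvPolynomial.eval e b)
        (MvPolynomial.eval e c) := by
      rw [hΔ]
      simp only [dsc, map_sub, map_add, map_mul, map_pow, map_ofNat]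
    rw [← e9]
    exact hΔe
  · intro h n hn h0'
    have hY : 2 * tY (th f e x y) ≠ 0 := k1
    obtain ⟨h2, e2⟩ := dbl_mk h hY (ℓ := (3 * tX (th f e x y) ^ 2 + 2 * tA (th f e x y) *
      tX (th f e x y) + tB (th f e x y)) / (2 * tY (th f e x y))) (div_mul_cancel₀ _ hY)
    set X2 := ((3 * tX (th f e x y) ^ 2 + 2 * tA (th f e x y) *
      tX (th f e x y) + tB (th f e x y)) / (2 * tY (th f e x y))) ^ 2 - tA (th f e x y) -
      tX (th f e x y) - tX (th f e x y) with hX2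
    have hx : X2 * MvPolynomial.eval e D = MvPolynomial.eval e N := by
      have e3 : X2 * (16 * y ^ 2 * MvPolynomial.eval e Bp ^ 2) = MvPolynomial.eval e T1 ^ 2 -
          MvPolynomial.eval e Bp ^ 2 * MvPolynomial.eval e u := by
        rw [hT1, hu]
        simp only [map_add, map_mul, map_sub, map_pow, MvPolynomial.eval_C, map_ofNat]
        rw [hTv, hBv, ← c0, ← c1]
        have e4 : X2 = ((3 * xs y (cq f x e 0) (cq f x e 1) ^ 2 + 2 * cq f x e 1 *
          xs y (cq f x e 0) (cq f x e 1) + rb y (cq f x e 0) (cq f x e 2) (cq f x e 3)) /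
          (2 * ys y (cq f x e 0) (cq f x e 1) (cq f x e 2))) ^ 2 - cq f x e 1 -
            xs y (cq f x e 0) (cq f x e 1) - xs y (cq f x e 0) (cq f x e 1) := rfl
        rw [e4]
        exact k2
      have e5 := congrArg (MvPolynomial.eval e) hN
      have e6 := congrArg (MvPolynomial.eval e) hD
      simp only [map_mul, map_pow, map_sub, MvPolynomial.eval_C] at e5 e6
      have e7 : MvPolynomial.eval e g ^ 2 * (X2 * MvPolynomial.eval e D) =
          MvPolynomial.eval e g ^ 2 * MvPolynomial.eval e N := by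
        rw [← e5, ← e3, ← mul_assoc, mul_comm (MvPolynomial.eval e g ^ 2) X2, mul_assoc, ← e6]
      exact mul_left_cancel₀ (pow_ne_zero 2 hge) e7
    have hnt := nontor_of_itd (a := tA (th f e x y)) (b := tB (th f e x y))
      (c := tC (th f e x y)) (M := n) h2 hx (by
        rw [eA, eB, eC]
        exact fun i _ => hd' i) (by
        rw [eA, eB, eC]
        exact fun i _ j _ hij0 => hij' i j hij0) n hn le_rfl
    apply hnt
    have e8 : (.some _ _ h2 : Pt (tA (th f e x y)) (tB (th f e x y)) (tC (th f e x y))) =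
      (2 : ℕ) • .some _ _ h := by rw [two_nsmul]; exact e2.symm
    rw [e8, ← mul_smul, mul_comm, mul_smul]
    have h0'' : n • (.some _ _ h : Pt (tA (th f e x y)) (tB (th f e x y)) (tC (th f e x y))) = 0 :=
      h0'
    rw [h0'', smul_zero]

end main

end Pool.Agent.Y718.CL
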