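import Pool.Agent.Y718.CL.Loc

/-!
# The exceptional points of a local double cover
-/

set_option autoImplicit false
set_option linter.unusedVariables false
set_option linter.unusedSectionVars false

open Filter Topology Pool.Agent.Y720.MZ WeierstrassCurve Pool.Agent.Y718.SF

namespace Pool.Agent.Y718.CL

section hom

variable {F : Type*} [Field F] [Infinite F] {κ : Type*}

lemma hom_eval {P : MvPolynomial κ F} {d : ℕ} (hP : P.IsHomogeneous d) (c : F) (U : κ → F) :
    MvPolynomial.eval (c • U) P = c ^ d * MvPolynomial.eval U P := by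
  classical
  rw [MvPolynomial.eval_eq, MvPolynomial.eval_eq, Finset.mul_sum]
  refine Finset.sum_congr rfl fun m hm => ?_
  have h1 : ∑ i ∈ m.support, m i = d := by
    have := hP (MvPolynomial.mem_support_iff.mp hm)
    simpa [Finsupp.weight_apply, Finsupp.sum] using this
  have h2 : ∏ i ∈ m.support, (c • U) i ^ m i = c ^ d * ∏ i ∈ m.support, U i ^ m i := by
    rw [← h1, ← Finset.prod_pow_eq_pow_sum, ← Finset.prod_mul_distrib]
    refine Finset.prod_congr rfl fun i _ => ?_
    rw [Pi.smul_apply, smul_eq_mul, mul_pow]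
  rw [h2]
  ring

/-- polynomial functions which are homogeneous -/
lemma hom_of_scale {P : MvPolynomial κ F} {d : ℕ}
    (h : ∀ (U : κ → F) (c : F), MvPolynomial.eval (c • U) P = c ^ d * MvPolynomial.eval U P) :
    P.IsHomogeneous d := by
  classical
  have h1 : ∀ i, i ≠ d → MvPolynomial.homogeneousComponent i P = 0 := by
    intro i hi
    apply MvPolynomial.funext
    intro U
    rw [map_zero]
    set q : Polynomial F := ∑ j ∈ Finset.range (P.totalDegree + 1),
      Polynomial.C (MvPolynomial.eval U (MvPolynomial.homogeneousComponent j P)) *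
        Polynomial.X ^ j with hq
    have h2 : q = Polynomial.C (MvPolynomial.eval U P) * Polynomial.X ^ d := by
      apply Polynomial.funext
      intro c
      rw [hq, Polynomial.eval_finsetSum]
      simp only [Polynomial.eval_mul, Polynomial.eval_C, Polynomial.eval_pow, Polynomial.eval_X]
      rw [mul_comm (MvPolynomial.eval U P), ← h U c]
      conv_rhs => rw [← MvPolynomial.sum_homogeneousComponent P]
      rw [map_sum]
      refine Finset.sum_congr rfl fun j _ => ?_
      rw [hom_eval (MvPolynomial.homogeneousComponent_isHomogeneous j P), mul_comm]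
    have h3 := congrArg (fun r => Polynomial.coeff r i) h2
    simp only [Polynomial.coeff_C_mul, Polynomial.coeff_X_pow, if_neg hi, mul_zero, hq,
      Polynomial.finsetSum_coeff] at h3
    by_cases hr : i < P.totalDegree + 1
    · rw [Finset.sum_eq_single i] at h3
      · simpa using h3
      · intro j _ hj
        rw [if_neg (Ne.symm hj), mul_zero]
      · intro hi'
        exact absurd (Finset.mem_range.2 hr) hi'
    · rw [MvPolynomial.homogeneousComponent_eq_zero _ _ (by omega), map_zero]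
  have h4 : P = MvPolynomial.homogeneousComponent d P := by
    conv_lhs => rw [← MvPolynomial.sum_homogeneousComponent P]
    by_cases hd : d < P.totalDegree + 1
    · rw [Finset.sum_eq_single d]
      · intro j _ hj
        exact h1 j hj
      · intro h
        exact absurd (Finset.mem_range.2 hd) h
    · rw [MvPolynomial.homogeneousComponent_eq_zero d P (by omega)]
      refine Finset.sum_eq_zero fun j hj => h1 j ?_
      rintro rfl
      exact hd (Finset.mem_range.1 hj)
  rw [h4]
  exact MvPolynomial.homogeneousComponent_isHomogeneous d P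

end hom

section gen

variable {F : Type} [Field F] [CharZero F] {κ : Type}

/-- the generic restriction to a line through a point -/
noncomputable def g0 (f : MvPolynomial κ F) (x : κ → F) : Polynomial (MvPolynomial κ F) :=
  lg (MvPolynomial.map (MvPolynomial.C : F →+* MvPolynomial κ F) f)
    (fun i => (MvPolynomial.C (x i) : MvPolynomial κ F))
    (fun i => (MvPolynomial.X i : MvPolynomial κ F))

lemma g0_map {S : Type} [Field S] [CharZero S] (φ : F →+* S) (f : MvPolynomial κ F) (x : κ → F)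
    (V : κ → S) : (g0 f x).map (MvPolynomial.eval₂Hom φ V) =
      lg (MvPolynomial.map φ f) (fun i => φ (x i)) V := by
  rw [g0, ← lg_map, MvPolynomial.map_map]
  have e1 : (MvPolynomial.eval₂Hom φ V).comp (MvPolynomial.C : F →+* MvPolynomial κ F) = φ := by
    ext a
    simp
  rw [e1]
  congr 1
  · funext i; simp
  · funext i; simp

lemma g0_eval (f : MvPolynomial κ F) (x e : κ → F) :
    (g0 f x).map (MvPolynomial.eval e) = lg f x e := by
  have := g0_map (RingHom.id F) f x e
  rw [MvPolynomial.map_id] at this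
  exact this

lemma Bp_map {S : Type} [Field S] [CharZero S] (φ : F →+* S) (f : MvPolynomial κ F) (x : κ → F)
    (V : κ → S) : MvPolynomial.eval₂Hom φ V (gB (g0 f x)) =
      gB (lg (MvPolynomial.map φ f) (fun i => φ (x i)) V) := by
  rw [← g0_map, gB_map]

lemma Bp_eval (f : MvPolynomial κ F) (x e : κ → F) :
    MvPolynomial.eval e (gB (g0 f x)) = gB (lg f x e) := by
  rw [← g0_eval, gB_map]

lemma Tp_map {S : Type} [Field S] [CharZero S] (φ : F →+* S) (f : MvPolynomial κ F) (x : κ → F)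
    (V : κ → S) : MvPolynomial.eval₂Hom φ V (SF.gT (g0 f x)) =
      SF.gT (lg (MvPolynomial.map φ f) (fun i => φ (x i)) V) := by
  rw [← g0_map, SF.gT_map]

lemma Tp_eval (f : MvPolynomial κ F) (x e : κ → F) :
    MvPolynomial.eval e (SF.gT (g0 f x)) = SF.gT (lg f x e) := by
  rw [← g0_eval, SF.gT_map]

lemma Dp_map {S : Type} [Field S] [CharZero S] (φ : F →+* S) (f : MvPolynomial κ F) (x : κ → F)
    (V : κ → S) : MvPolynomial.eval₂Hom φ V (X.Db (g0 f x)) =
      X.Db (lg (MvPolynomial.map φ f) (fun i => φ (x i)) V) := by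
  rw [← g0_map, X.Db_map]

lemma Dp_eval (f : MvPolynomial κ F) (x e : κ → F) :
    MvPolynomial.eval e (X.Db (g0 f x)) = X.Db (lg f x e) := by
  rw [← g0_eval, X.Db_map]

lemma Tq_Db [Fintype κ] (f : MvPolynomial κ F) (x e : κ → F) : Tq f e x = X.Db (lg f x e) := by
  rw [Tq, X.Db, X.Ab, X.Bb, X.Cb, ← c0_eq f x e]
  rfl

/-- some restriction is separable -/
theorem exists_Tq (hS : S_SEP) (φ : F →+* ℂ) {n : ℕ} (hn : 1 ≤ n)
    {f : MvPolynomial (Fin (n + 1)) F} (hf : f.IsHomogeneous 4)
    (hsm : Smooth (MvPolynomial.map φ f)) {x : Fin (n + 1) → F}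
    (hx : MvPolynomial.eval x f ≠ 0) : ∃ e : Fin (n + 1) → F, Tq f e x ≠ 0 := by
  by_contra hcon
  push Not at hcon
  have h0 : X.Db (g0 f x) = 0 := by
    apply MvPolynomial.funext
    intro e
    rw [Dp_eval, map_zero, ← Tq_Db]
    exact hcon e
  obtain ⟨V, hV⟩ := hS n (MvPolynomial.map φ f) (hf.map φ) hsm hn (fun i => φ (x i)) (by
    have h1 : MvPolynomial.eval (fun i => φ (x i)) (MvPolynomial.map φ f) =
        φ (MvPolynomial.eval x f) := by
      rw [MvPolynomial.eval_map]
      exact (MvPolynomial.eval₂_comp_left φ (RingHom.id F) x f).symm ▸ rfl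
    rw [h1]
    exact (map_ne_zero φ).2 hx)
  apply hV
  rw [← Dp_map, h0, map_zero]

end gen

/-- an exceptional point -/
def Bad {F : Type} [Field F] [CharZero F] {κ : Type} [Fintype κ] (f : MvPolynomial κ F)
    (x : κ → F) : Prop :=
  (∀ U : κ → F, gB (lg f x U) = 0) ∨ ∃ l : κ → F, ∀ U : κ → F,
    SF.gT (lg f x U) = (∑ i, l i * U i) * gB (lg f x U)

/-- **a direction of infinite order at a point which is not exceptional** -/
theorem loc_io (hU : S_UFD) (hBai : S_BAI) (hL : S_LIN) (hS : S_SEP) {p : ℕ} [Fact p.Prime]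
    (φ : ℚ_[p] →+* ℂ) {n : ℕ} (hn : 1 ≤ n) {f : MvPolynomial (Fin (n + 1)) ℚ_[p]}
    (hf : f.IsHomogeneous 4) (hsm : Smooth (MvPolynomial.map φ f)) {x : Fin (n + 1) → ℚ_[p]}
    {y : ℚ_[p]} (hP : onX f x y) (hy : y ≠ 0) (hb : ¬ Bad f x) : ∃ e, IOt (th f e x y) := by
  rw [Bad, not_or] at hb
  obtain ⟨h1, h2⟩ := hb
  refine exists_io hU hBai hP hy (gB (g0 f x)) (SF.gT (g0 f x)) (Bp_eval f x) (Tp_eval f x) ?_ ?_
    (exists_Tq hS φ hn hf hsm ?_)
  · intro h0
    apply h1
    intro U
    rw [← Bp_eval, h0, map_zero]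
  · intro hd
    apply h2
    obtain ⟨l, hl⟩ := hL ℚ_[p] (Fin (n + 1)) (gB (g0 f x)) (SF.gT (g0 f x))
      (hom_of_scale fun U c => by rw [Bp_eval, Bp_eval, gB_smul])
      (hom_of_scale fun U c => by rw [Tp_eval, Tp_eval, SF.gT_smul]) hd
    exact ⟨l, fun U => by rw [← Tp_eval, ← Bp_eval]; exact hl U⟩
  · rw [← (show y ^ 2 = _ from hP)]
    exact pow_ne_zero 2 hy

section fin

variable {F : Type} [Field F] [CharZero F]

/-- **the exceptional points in a chart are finite in number** -/
theorem bad_fin (h0 : S_EX0) (h1 : S_EX1) (φ : F →+* ℂ) {n : ℕ} (hn : 2 ≤ n)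
    {f : MvPolynomial (Fin (n + 1)) F} (hf : f.IsHomogeneous 4)
    (hsm : Smooth (MvPolynomial.map φ f)) (q : Fin (n + 1)) :
    {z : Fin n → F | MvPolynomial.eval (ic q 1 z) f ≠ 0 ∧ Bad f (ic q 1 z)}.Finite := by
  have k0 := h0 n (MvPolynomial.map φ f) (hf.map φ) hsm q
  have k1 := (h1 n (MvPolynomial.map φ f) (hf.map φ) hsm hn q).image fun w j => w (Sum.inl j)
  have hinj : Function.Injective (fun (z : Fin n → F) (j : Fin n) => φ (z j)) := by
    intro z z' h
    funext j
    exact φ.injective (congrFun h j)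
  refine ((k0.union k1).preimage hinj.injOn).subset ?_
  rintro z ⟨hz, hb⟩
  have e1 : (fun i => φ (ic q 1 z i)) = ic q 1 (fun j => φ (z j)) := by
    rw [ic_map, map_one]
  have e2 : MvPolynomial.eval (ic q 1 (fun j => φ (z j))) (MvPolynomial.map φ f) ≠ 0 := by
    rw [← e1]
    have h1 : MvPolynomial.eval (fun i => φ (ic q 1 z i)) (MvPolynomial.map φ f) =
        φ (MvPolynomial.eval (ic q 1 z) f) := by
      rw [MvPolynomial.eval_map]
      exact (MvPolynomial.eval₂_comp_left φ (RingHom.id F) (ic q 1 z) f).symm ▸ rfl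
    rw [h1]
    exact (map_ne_zero φ).2 hz
  rw [Set.mem_preimage, Set.mem_union]
  by_cases hB : ∀ U : Fin (n + 1) → F, gB (lg f (ic q 1 z) U) = 0
  · left
    refine ⟨e2, fun U => ?_⟩
    have h2 : gB (g0 f (ic q 1 z)) = 0 := by
      apply MvPolynomial.funext
      intro e
      rw [Bp_eval, hB, map_zero]
    rw [← e1, ← Bp_map, h2, map_zero]
  · right
    obtain ⟨l, hl⟩ := hb.resolve_left hB
    push Not at hB
    obtain ⟨U1, hU1⟩ := hB
    refine ⟨Sum.elim (fun j => φ (z j)) (fun i => φ (l i)), ⟨e2, ⟨fun i => φ (U1 i), ?_⟩,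
      fun U => ?_⟩, rfl⟩
    · show gB (lg (MvPolynomial.map φ f) (ic q 1 fun j => φ (z j)) fun i => φ (U1 i)) ≠ 0
      rw [← e1, lg_map, gB_map]
      exact (map_ne_zero φ).2 hU1
    · show SF.gT (lg (MvPolynomial.map φ f) (ic q 1 fun j => φ (z j)) U) =
        (∑ i, φ (l i) * U i) * gB (lg (MvPolynomial.map φ f) (ic q 1 fun j => φ (z j)) U)
      have h2 : SF.gT (g0 f (ic q 1 z)) = (∑ i, MvPolynomial.C (l i) * MvPolynomial.X i) *
          gB (g0 f (ic q 1 z)) := by
        apply MvPolynomial.funext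
        intro e
        rw [Tp_eval, map_mul, Bp_eval, hl, map_sum]
        simp only [map_mul, MvPolynomial.eval_C, MvPolynomial.eval_X]
      rw [← e1, ← Tp_map, ← Bp_map, h2, map_mul, map_sum]
      congr 1
      refine Finset.sum_congr rfl fun i _ => ?_
      simp

/-- scaling of the base point -/
lemma lg_scale {κ : Type} {f : MvPolynomial κ F} (hf : f.IsHomogeneous 4) {c : F} (hc : c ≠ 0)
    (x U : κ → F) : (lg f (c • x) U).coeff 0 = c ^ 4 * (lg f x U).coeff 0 ∧
      (lg f (c • x) U).coeff 1 = c ^ 3 * (lg f x U).coeff 1 ∧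
      (lg f (c • x) U).coeff 2 = c ^ 2 * (lg f x U).coeff 2 ∧
      (lg f (c • x) U).coeff 3 = c * (lg f x U).coeff 3 ∧
      (lg f (c • x) U).coeff 4 = (lg f x U).coeff 4 := by
  refine coeff_of_eval fun s => ?_
  rw [lg_eval, bin hf]
  ring

lemma Bad.scale {κ : Type} [Fintype κ] {f : MvPolynomial κ F} (hf : f.IsHomogeneous 4) {c : F}
    (hc : c ≠ 0) {x : κ → F} (h : Bad f x) : Bad f (c • x) := by
  have hB : ∀ U, gB (lg f (c • x) U) = c ^ 9 * gB (lg f x U) := by
    intro U
    obtain ⟨a0, a1, a2, a3, a4⟩ := lg_scale hf hc x U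
    rw [gB, gB, a0, a1, a2, a3]
    ring
  have hT : ∀ U, SF.gT (lg f (c • x) U) = c ^ 12 * SF.gT (lg f x U) := by
    intro U
    obtain ⟨a0, a1, a2, a3, a4⟩ := lg_scale hf hc x U
    rw [SF.gT, SF.gT, a0, a1, a2, a4]
    ring
  rcases h with h | ⟨l, hl⟩
  · left
    intro U
    rw [hB, h, mul_zero]
  · right
    refine ⟨fun i => c ^ 3 * l i, fun U => ?_⟩
    rw [hT, hB, hl]
    have : ∑ i, c ^ 3 * l i * U i = c ^ 3 * ∑ i, l i * U i := by
      rw [Finset.mul_sum]
      exact Finset.sum_congr rfl fun i _ => by ring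
    rw [this]
    ring

/-- **the exceptional points** -/
theorem bad_set (h0 : S_EX0) (h1 : S_EX1) (φ : F →+* ℂ) {n : ℕ} (hn : 2 ≤ n)
    {f : MvPolynomial (Fin (n + 1)) F} (hf : f.IsHomogeneous 4)
    (hsm : Smooth (MvPolynomial.map φ f)) :
    ∃ E : Set (Fin (n + 1) → F), E.Finite ∧ ∀ x : Fin (n + 1) → F, MvPolynomial.eval x f ≠ 0 →
      Bad f x → ∃ e ∈ E, ∃ c : F, x = c • e := by
  refine ⟨⋃ q : Fin (n + 1), (fun z => ic q 1 z) ''
    {z : Fin n → F | MvPolynomial.eval (ic q 1 z) f ≠ 0 ∧ Bad f (ic q 1 z)},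
    Set.finite_iUnion fun q => (bad_fin h0 h1 φ hn hf hsm q).image _, fun x hx hb => ?_⟩
  have hx0 : ∃ q, x q ≠ 0 := by
    by_contra hc
    push Not at hc
    have : x = (0 : F) • x := by
      funext i
      simp [hc i]
    apply hx
    rw [this, hom_smul hf]
    simp
  obtain ⟨q, hq⟩ := hx0
  have e1 : x = x q • ic q 1 (fun j => x (q.succAbove j) / x q) := by
    apply ic_ext q
    · rw [Pi.smul_apply, ic_same, smul_eq_mul, mul_one]
    · intro j
      rw [Pi.smul_apply, ic_above, smul_eq_mul, mul_div_cancel₀ _ hq]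
  have e2 : ic q 1 (fun j => x (q.succAbove j) / x q) = (x q)⁻¹ • x := by
    apply ic_ext q
    · rw [ic_same, Pi.smul_apply, smul_eq_mul, inv_mul_cancel₀ hq]
    · intro j
      rw [ic_above, Pi.smul_apply, smul_eq_mul, div_eq_inv_mul]
  refine ⟨ic q 1 (fun j => x (q.succAbove j) / x q), Set.mem_iUnion.2 ⟨q, _, ⟨?_, ?_⟩, rfl⟩,
    x q, e1⟩
  · rw [e2, hom_smul hf]
    exact mul_ne_zero (pow_ne_zero 4 (inv_ne_zero hq)) hx
  · rw [e2]
    exact hb.scale hf (inv_ne_zero hq)

end fin

end Pool.Agent.Y718.CL
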