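import Pool.Agent.Y720.WL.Cy2

/-!
# The directions of the moves form a vector space
-/

set_option autoImplicit false
set_option linter.unusedVariables false
set_option linter.unusedSectionVars false

open Filter Topology Pool.Agent.Y720.MZ

namespace Pool.Agent.Y718.CL

variable {K : Type*} [Field K] [CharZero K] {V : Type*} [Finite V] {L : V → Type*}
  [∀ v, NontriviallyNormedField (L v)] [∀ v, CompleteSpace (L v)] {s : ∀ v, K →+* L v}
  {α : Type*} [Fintype α] {f : MvPolynomial α K} {x₀ : ∀ v, α → L v} {y₀ : ∀ v, L v}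

/-- the trivial move -/
theorem mv_zero (hw : ∀ v, y₀ v ≠ 0) : MvL s f (0 : α → K) x₀ y₀ := by
  have hcz : ∀ v, CharZero (L v) := fun v => charZero_of_injective_ringHom (s v).injective
  obtain ⟨ε, hε, hm⟩ := fin_min (f := fun v : V => ‖2 * y₀ v‖ / 2) fun v => half_pos (by
    have := hcz v
    exact norm_pos_iff.2 (mul_ne_zero two_ne_zero (hw v)))
  refine ⟨ε, hε, fun z w hzw hn t Y ht hY hYe η hη => ⟨z, w, hzw, fun v => ?_⟩⟩
  have e0 : (fun a => s v (z a) + t v * s v ((0 : α → K) a)) = fun a => s v (z a) := by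
    funext a; simp
  have h2 := hYe v
  rw [e0] at h2
  have h3 : Y v ^ 2 = s v w ^ 2 := h2.trans (onX_map (s := s) hzw v).symm
  have h4 : (Y v - s v w) * (Y v + s v w) = 0 := by linear_combination h3
  have h5 : Y v + s v w ≠ 0 := by
    intro h0
    have h6 : 2 * y₀ v = -(Y v - y₀ v) + -(s v w - y₀ v) := by
      linear_combination h0
    have h7 := norm_add_le (-(Y v - y₀ v)) (-(s v w - y₀ v))
    rw [← h6, norm_neg, norm_neg] at h7
    have h8 := hY v
    have h9 := (hn v).2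
    have := hm v
    linarith
  have h6 : Y v = s v w := sub_eq_zero.1 ((mul_eq_zero.1 h4).resolve_right h5)
  refine ⟨fun a => ?_, ?_⟩
  · have := congrFun e0 a
    change ‖s v (z a) - (s v (z a) + t v * s v ((0 : α → K) a))‖ < η
    rw [this, sub_self, norm_zero]; exact hη
  · rw [h6, sub_self, norm_zero]; exact hη

/-- multiples of the direction -/
theorem mv_smul (hw : ∀ v, y₀ v ≠ 0) {e : α → K} (h : MvL s f e x₀ y₀) (c : K) :
    MvL s f (c • e) x₀ y₀ := by
  by_cases hc : c = 0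
  · rw [hc, zero_smul]; exact mv_zero hw
  obtain ⟨δ, hδ, hm⟩ := h
  have hcv : ∀ v, 0 < ‖s v c‖ := fun v => norm_pos_iff.2 ((map_ne_zero (s v)).2 hc)
  obtain ⟨δ', hδ', hδ'v⟩ := fin_min (f := fun v : V => δ / ‖s v c‖) fun v => div_pos hδ (hcv v)
  refine ⟨min δ δ', lt_min hδ hδ', fun z w hzw hn t Y ht hY hYe η hη => ?_⟩
  have e1 : ∀ v a, s v (z a) + t v * s v ((c • e) a) = s v (z a) + (t v * s v c) * s v (e a) := by
    intro v a
    rw [Pi.smul_apply, smul_eq_mul, map_mul]
    ring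
  obtain ⟨z', w', h1, h2⟩ := hm z w hzw (hn.mono (min_le_left _ _)) (fun v => t v * s v c) Y
    (fun v => by
      have := (ht v).trans_le ((min_le_right _ _).trans (hδ'v v))
      rw [lt_div_iff₀ (hcv v)] at this
      rw [norm_mul]
      exact this)
    (fun v => (hY v).trans_le (min_le_left _ _)) (fun v => by
      have := hYe v
      simp only [e1] at this
      exact this) η hη
  refine ⟨z', w', h1, fun v => ⟨fun a => ?_, (h2 v).2⟩⟩
  have := (h2 v).1 a
  dsimp only at this ⊢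
  rw [e1]
  exact this

/-- sums of directions -/
theorem mv_add (hP : ∀ v, onX (MvPolynomial.map (s v) f) (x₀ v) (y₀ v)) (hw : ∀ v, y₀ v ≠ 0)
    {e e' : α → K} (h : MvL s f e x₀ y₀) (h' : MvL s f e' x₀ y₀) : MvL s f (e + e') x₀ y₀ := by
  by_cases hV : IsEmpty V
  · exact ⟨1, one_pos, fun z w hzw hn t Y ht hY hYe η hη => ⟨z, w, hzw,
      fun v => (hV.false v).elim⟩⟩
  rw [not_isEmpty_iff] at hV
  have hcz : ∀ v, CharZero (L v) := fun v => charZero_of_injective_ringHom (s v).injective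
  obtain ⟨δ₁, hδ₁, hm⟩ := h
  obtain ⟨δ₂, hδ₂, hm'⟩ := h'
  -- square roots close to the base point
  have hsq : ∀ v', ∃ ρ : ℝ, 0 < ρ ∧ ∀ x' : α → L v',
      (∀ a, ‖x' a - x₀ v' a‖ < ρ) →
      ∃ y' : L v', ‖y' - y₀ v'‖ < min δ₁ (δ₂ / 2) ∧ onX (MvPolynomial.map (s v') f) x' y' := by
    intro v'
    have := hcz v'
    exact sq_near (hP v') (hw v') (lt_min hδ₁ (half_pos hδ₂))
  choose ρ hρ hρb using hsq
  obtain ⟨ρ₀, hρ₀, hρm⟩ := fin_min hρ
  set ε₀ := min (δ₂ / 4) (ρ₀ / 2) with hε₀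
  have hε₀0 : 0 < ε₀ := lt_min (by positivity) (by positivity)
  have a1 : ε₀ ≤ δ₂ / 4 := min_le_left _ _
  have a2 : ε₀ ≤ ρ₀ / 2 := min_le_right _ _
  obtain ⟨κ, hκ, hκle, hdir⟩ := dir_bound (s := s) e hε₀0
  obtain ⟨ω, hω, hωm⟩ := fin_min (f := fun v' : V => ‖y₀ v'‖) fun v' => norm_pos_iff.2 (hw v')
  set ε := min (min κ ω) (min δ₁ (δ₂ / 2)) with hε
  have hε0 : 0 < ε := lt_min (lt_min hκ hω) (lt_min hδ₁ (half_pos hδ₂))
  have b1 : ε ≤ κ := (min_le_left _ _).trans (min_le_left _ _)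
  have b2 : ε ≤ ω := (min_le_left _ _).trans (min_le_right _ _)
  have b3 : ε ≤ δ₁ := (min_le_right _ _).trans (min_le_left _ _)
  have b4 : ε ≤ δ₂ / 2 := (min_le_right _ _).trans (min_le_right _ _)
  refine ⟨ε, hε0, fun z w hzw hn t Y ht hY hYe η hη => ?_⟩
  have hte : ∀ v' a, ‖t v' * s v' (e a)‖ < ε₀ := fun v' a =>
    hdir v' a _ ((ht v').trans_le b1)
  -- square roots close to the target
  have hsq' : ∀ v', ∃ ρ : ℝ, 0 < ρ ∧ ∀ x' : α → L v',
      (∀ a, ‖x' a - (s v' (z a) + t v' * s v' ((e + e') a))‖ < ρ) →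
      ∃ y' : L v', ‖y' - Y v'‖ < min (η / 2) (δ₂ / 2) ∧
        onX (MvPolynomial.map (s v') f) x' y' := by
    intro v'
    have := hcz v'
    refine sq_near (hYe v') ?_ (lt_min (half_pos hη) (half_pos hδ₂))
    intro h0
    have h1 := (hY v').trans_le b2
    rw [h0, zero_sub, norm_neg] at h1
    exact absurd h1 (not_lt.2 (hωm v'))
  choose ρ' hρ' hρb' using hsq'
  obtain ⟨ρ₁, hρ₁, hρm'⟩ := fin_min hρ'
  set η₁ := min (min (δ₂ / 4) ρ₁) (η / 2) with hη₁
  have hη₁0 : 0 < η₁ := lt_min (lt_min (by positivity) hρ₁) (half_pos hη)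
  have c1 : η₁ ≤ δ₂ / 4 := (min_le_left _ _).trans (min_le_left _ _)
  have c2 : η₁ ≤ ρ₁ := (min_le_left _ _).trans (min_le_right _ _)
  have c3 : η₁ ≤ η / 2 := min_le_right _ _
  -- the first step
  choose Y₁ hY₁a hY₁b using fun v' => hρb v' (fun a => s v' (z a) + t v' * s v' (e a))
    (fun a => by
      have e1 : s v' (z a) + t v' * s v' (e a) - x₀ v' a =
          (s v' (z a) - x₀ v' a) + t v' * s v' (e a) := by ring
      rw [e1]
      have k1 := norm_add_le (s v' (z a) - x₀ v' a) (t v' * s v' (e a))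
      have k2 := (hn v').1 a
      have k3 := hte v' a
      have k4 := hρm v'
      have k5 : ε ≤ ε₀ := b1.trans hκle
      linarith)
  obtain ⟨z₁, w₁, hzw₁, hn₁⟩ := hm z w hzw (hn.mono b3) t Y₁
    (fun v' => (ht v').trans_le b3) (fun v' => (hY₁a v').trans_le (min_le_left _ _)) hY₁b η₁ hη₁0
  have hz₁ : ∀ v' a, ‖s v' (z₁ a) - (s v' (z a) + t v' * s v' (e a))‖ < η₁ := fun v' a =>
    (hn₁ v').1 a
  -- the second step
  choose Y₂ hY₂a hY₂b using fun v' => hρb' v' (fun a => s v' (z₁ a) + t v' * s v' (e' a))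
    (fun a => by
      have e1 : s v' (z₁ a) + t v' * s v' (e' a) - (s v' (z a) + t v' * s v' ((e + e') a)) =
          s v' (z₁ a) - (s v' (z a) + t v' * s v' (e a)) := by
        rw [Pi.add_apply, map_add]; ring
      rw [e1]
      exact (hz₁ v' a).trans_le (c2.trans (hρm' v')))
  obtain ⟨z₂, w₂, hzw₂, hn₂⟩ := hm' z₁ w₁ hzw₁ (fun v' => ⟨fun a => by
      have e1 : s v' (z₁ a) - x₀ v' a = (s v' (z₁ a) - (s v' (z a) + t v' * s v' (e a))) +
          ((s v' (z a) - x₀ v' a) + t v' * s v' (e a)) := by ring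
      rw [e1]
      have k1 := norm_add_le (s v' (z₁ a) - (s v' (z a) + t v' * s v' (e a)))
        ((s v' (z a) - x₀ v' a) + t v' * s v' (e a))
      have k2 := norm_add_le (s v' (z a) - x₀ v' a) (t v' * s v' (e a))
      have k3 := hz₁ v' a
      have k4 := (hn v').1 a
      have k5 := hte v' a
      linarith, by
      have k1 := (hn₁ v').2
      have k2 := (hY₁a v').trans_le (min_le_right _ _)
      have k3 := norm_sub_le_norm_sub_add_norm_sub (s v' w₁) (Y₁ v') (y₀ v')
      linarith⟩) t Y₂ (fun v' => (ht v').trans_le (b4.trans (by linarith))) (fun v' => by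
      have k1 := (hY₂a v').trans_le (min_le_right _ _)
      have k2 := (hY v').trans_le b4
      have k3 := norm_sub_le_norm_sub_add_norm_sub (Y₂ v') (Y v') (y₀ v')
      linarith) hY₂b η₁ hη₁0
  refine ⟨z₂, w₂, hzw₂, fun v' => ⟨fun a => ?_, ?_⟩⟩
  · have e1 : s v' (z₂ a) - (s v' (z a) + t v' * s v' ((e + e') a)) =
        (s v' (z₂ a) - (s v' (z₁ a) + t v' * s v' (e' a))) +
        (s v' (z₁ a) - (s v' (z a) + t v' * s v' (e a))) := by
      rw [Pi.add_apply, map_add]; ring
    have k1 := (hn₂ v').1 a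
    have k2 := hz₁ v' a
    have k3 := norm_add_le (s v' (z₂ a) - (s v' (z₁ a) + t v' * s v' (e' a)))
        (s v' (z₁ a) - (s v' (z a) + t v' * s v' (e a)))
    dsimp only at k1 ⊢
    rw [e1]
    linarith
  · have k1 := (hn₂ v').2
    have k2 := (hY₂a v').trans_le (min_le_left _ _)
    have k3 := norm_sub_le_norm_sub_add_norm_sub (s v' w₂) (Y₂ v') (Y v')
    linarith

/-- the space of the directions of moves -/
def mvSub (hP : ∀ v, onX (MvPolynomial.map (s v) f) (x₀ v) (y₀ v)) (hw : ∀ v, y₀ v ≠ 0) :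
    Submodule K (α → K) where
  carrier := {e | MvL s f e x₀ y₀}
  add_mem' h h' := mv_add hP hw h h'
  zero_mem' := mv_zero hw
  smul_mem' c _ h := mv_smul hw h c

/-- **moves in directions which span the space** -/
theorem int_of_span (hP : ∀ v, onX (MvPolynomial.map (s v) f) (x₀ v) (y₀ v))
    (hw : ∀ v, y₀ v ≠ 0) {B : Set (α → K)} (hB : Submodule.span K B = ⊤)
    (hM : ∀ e ∈ B, MvL s f e x₀ y₀) : IntL s f x₀ y₀ := by
  classical
  refine int_of_mvL hP hw fun a => ?_
  have h1 : Submodule.span K B ≤ mvSub hP hw := Submodule.span_le.2 hM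
  rw [hB] at h1
  exact h1 (Submodule.mem_top (x := Pi.single a 1))

/-- **moves in the directions close to given local ones** -/
theorem int_of_near (hden : Dn s) (hP : ∀ v, onX (MvPolynomial.map (s v) f) (x₀ v) (y₀ v))
    (hw : ∀ v, y₀ v ≠ 0) (e₀ : ∀ v, α → L v) {r : ℝ} (hr : 0 < r)
    (hM : ∀ e : α → K, (∀ v a, ‖s v (e a) - e₀ v a‖ < r) → MvL s f e x₀ y₀) :
    IntL s f x₀ y₀ := by
  classical
  have hV : IsEmpty V ∨ Nonempty V := isEmpty_or_nonempty V
  -- a small element
  have hsm : ∃ c : K, c ≠ 0 ∧ ∀ v, ‖s v c‖ < r / 2 := by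
    rcases hV with hV | ⟨⟨v₁⟩⟩
    · exact ⟨1, one_ne_zero, fun v => (hV.false v).elim⟩
    · have h1 : ∀ v : V, ∃ m : L v, 0 < ‖m‖ ∧ ‖m‖ < r / 4 := fun v =>
        NormedField.exists_norm_lt (L v) (by positivity)
      choose m hm0 hm1 using h1
      obtain ⟨η, hη, hηm⟩ := fin_min (f := fun v : V => min ‖m v‖ (r / 4))
        fun v => lt_min (hm0 v) (by positivity)
      obtain ⟨c, hc⟩ := hden m η hη
      refine ⟨c, ?_, fun v => ?_⟩
      · rintro rfl
        have := hc v₁
        rw [map_zero, zero_sub, norm_neg] at this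
        exact absurd this (not_lt.2 ((hηm v₁).trans (min_le_left _ _)))
      · have k1 := (hc v).trans_le ((hηm v).trans (min_le_right _ _))
        have k2 := norm_add_le (s v c - m v) (m v)
        rw [sub_add_cancel] at k2
        have := hm1 v
        linarith
  obtain ⟨c, hc0, hc⟩ := hsm
  have hg : ∃ g : α → K, ∀ v a, ‖s v (g a) - e₀ v a‖ < r / 2 := by
    have h1 := fun a => hden (fun v => e₀ v a) (r / 2) (half_pos hr)
    choose g hg using h1
    exact ⟨g, fun v a => hg a v⟩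
  obtain ⟨g, hg⟩ := hg
  refine int_of_span hP hw (B := insert g (Set.range fun a : α => g + c • (Pi.single a 1 : α → K)))
    ?_ ?_
  · rw [Submodule.eq_top_iff']
    intro x
    have h1 : x = ∑ a, x a • (Pi.single a 1 : α → K) := by
      funext b
      simp [Finset.sum_apply, Pi.single_apply]
    rw [h1]
    refine Submodule.sum_mem _ fun a _ => Submodule.smul_mem _ _ ?_
    have h2 : (Pi.single a 1 : α → K) = c⁻¹ • ((g + c • (Pi.single a 1 : α → K)) - g) := by
      rw [add_sub_cancel_left, smul_smul, inv_mul_cancel₀ hc0, one_smul]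
    rw [h2]
    refine Submodule.smul_mem _ _ (Submodule.sub_mem _ (Submodule.subset_span ?_)
      (Submodule.subset_span (Set.mem_insert _ _)))
    exact Set.mem_insert_of_mem _ ⟨a, rfl⟩
  · rintro e (rfl | ⟨b, rfl⟩)
    · exact hM _ fun v a => (hg v a).trans (by linarith)
    · refine hM _ fun v a => ?_
      have e1 : s v ((g + c • (Pi.single b 1 : α → K)) a) - e₀ v a =
          (s v (g a) - e₀ v a) + s v c * s v ((Pi.single b 1 : α → K) a) := by
        rw [Pi.add_apply, Pi.smul_apply, smul_eq_mul, map_add, map_mul]; ring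
      rw [e1]
      have k1 := norm_add_le (s v (g a) - e₀ v a) (s v c * s v ((Pi.single b 1 : α → K) a))
      have k2 : ‖s v c * s v ((Pi.single b 1 : α → K) a)‖ ≤ ‖s v c‖ := by
        by_cases hab : a = b
        · subst hab
          simp
        · rw [Pi.single_eq_of_ne hab, map_zero, mul_zero, norm_zero]
          exact norm_nonneg _
      have := hg v a
      have := hc v
      linarith

end Pool.Agent.Y718.CL
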