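import Pool.Agent.Y718.CL.Mv
import Pool.Agent.Y718.Forms

/-!
# Infinite order is an open condition at p-adic places; the closure is open at a local point
-/

set_option autoImplicit false
set_option linter.unusedVariables false
set_option linter.unusedSectionVars false

open Filter Topology Pool.Agent.Y720.MZ WeierstrassCurve

namespace Pool.Agent.Y718.CL

/-- **Infinite order is an open condition.** -/
theorem ev_IOt {p : ℕ} [Fact p.Prime] {θ₀ : ℚ_[p] × (Fin 4 → ℚ_[p])} (hw : θ₀.1 ≠ 0)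
    (h : IOt θ₀) : ∀ᶠ θ in 𝓝 θ₀, IOt θ := by
  classical
  letI : DecidableEq ℚ_[p] := Classical.decEq _
  obtain ⟨hD, hS⟩ := h
  have hT : TnL (RingHom.id ℚ_[p]) (𝓝 θ₀) θ₀ :=
    ⟨continuous_fst.tendsto θ₀, fun j => ((continuous_apply j).comp continuous_snd).tendsto θ₀⟩
  have h₀ := tns hw hD
  have hinf := hS h₀
  have hB := Bd_baseL θ₀
  set S₀ : Pt (tA θ₀) (tB θ₀) (tC θ₀) := .some _ _ h₀ with hS₀
  obtain ⟨N, hN, hNb⟩ := accum_near (RingHom.id ℚ_[p]) hD hB (P := S₀) hinf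
    (r := min (1 / (100 * CL θ₀)) ‖(p : ℚ_[p])‖) (lt_min hB.hρ norm_p_pos)
  have hr1 : av (RingHom.id _) (TT (N • S₀)) ≤ 1 / (100 * CL θ₀) :=
    hNb.le.trans (min_le_left _ _)
  have hrp : av (RingHom.id _) (TT (N • S₀)) ≤ ‖(p : ℚ_[p])‖ := hNb.le.trans (min_le_right _ _)
  have hr0 : 0 < av (RingHom.id _) (TT (N • S₀)) := (av (RingHom.id _)).pos
    (TT_ne hB (min_le_left _ _) hNb (hinf N hN))
  have ev := ev_pL hT hw h₀ hinf hN (min_le_left _ _) hNb
  filter_upwards [ev, hT.Bd, hT.dsc_ne hD] with θ h1 h2 h3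
  refine ⟨h3, fun hθ n hn h0 => ?_⟩
  obtain ⟨k1, k2⟩ := h1 hθ
  have h9 := U7 h2 hr1 hr0 hrp k1 k2
  apply h9 n hn
  rw [← mul_smul, mul_comm, mul_smul]
  have : n • (.some _ _ hθ : Pt (tA θ) (tB θ) (tC θ)) = 0 := h0
  rw [this, smul_zero]

section cont

variable {F : Type*} [NontriviallyNormedField F] [CharZero F] {α : Type*} [Fintype α]

lemma cq_cont_e (f : MvPolynomial α F) (x : α → F) (j : Fin 4) :
    Continuous fun e : α → F => cq f x e j := by
  obtain ⟨p, hp⟩ := Pool.Agent.Y718.SF.PKu_coeff f x ((j : ℕ) + 1)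
  have : (fun e : α → F => cq f x e j) = fun e => MvPolynomial.eval e p := funext hp
  rw [this]
  exact MvPolynomial.continuous_eval p

lemma th_cont_e (f : MvPolynomial α F) (x : α → F) (y : F) :
    Continuous fun e : α → F => th f e x y :=
  continuous_const.prodMk (continuous_pi fun j => cq_cont_e f x j)

lemma Tq_cont_e (f : MvPolynomial α F) (x : α → F) : Continuous fun e : α → F => Tq f e x := by
  have h := cq_cont_e f x
  unfold Tq dsc
  fun_prop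

lemma ball_of {P : (α → F) → Prop} {e₀ : α → F} (h : ∀ᶠ e in 𝓝 e₀, P e) :
    ∃ r : ℝ, 0 < r ∧ ∀ e : α → F, (∀ a, ‖e a - e₀ a‖ < r) → P e := by
  obtain ⟨r, hr, hb⟩ := Metric.eventually_nhds_iff_ball.1 h
  refine ⟨r, hr, fun e he => hb e ?_⟩
  rw [Metric.mem_ball, dist_pi_lt_iff hr]
  intro a
  rw [dist_eq_norm]
  exact he a

end cont

lemma dir_open {p : ℕ} [Fact p.Prime] {α : Type*} [Fintype α] {f : MvPolynomial α ℚ_[p]}
    {e₀ x : α → ℚ_[p]} {y : ℚ_[p]} (hy : y ≠ 0) (h : IOt (th f e₀ x y)) :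
    ∃ r : ℝ, 0 < r ∧ ∀ e : α → ℚ_[p], (∀ a, ‖e a - e₀ a‖ < r) → IOt (th f e x y) :=
  ball_of ((th_cont_e f x y).tendsto e₀ |>.eventually (ev_IOt (θ₀ := th f e₀ x y) hy h))

section places

variable {K : Type*} [Field K] [CharZero K] {ι : Type*} [Finite ι] {p : ι → ℕ}
  [hp : ∀ i, Fact (p i).Prime] {α : Type*} [Fintype α]

/-- **p-adic places** -/
theorem int_p [Nonempty ι] (hinj : Function.Injective p) (σ : ∀ i, K →+* ℚ_[p i])
    {f : MvPolynomial α K} (hd : ∀ e z : α → K, (rst f z e).natDegree ≤ 4)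
    {x₀ : ∀ i, α → ℚ_[p i]} {y₀ : ∀ i, ℚ_[p i]}
    (hP : ∀ i, onX (MvPolynomial.map (σ i) f) (x₀ i) (y₀ i)) (hw : ∀ i, y₀ i ≠ 0)
    (h : ∀ i, ∃ e : α → ℚ_[p i], IOt (th (MvPolynomial.map (σ i) f) e (x₀ i) (y₀ i))) :
    IntL σ f x₀ y₀ := by
  classical
  choose e₀ he₀ using h
  choose r hr hrb using fun i => dir_open (hw i) (he₀ i)
  obtain ⟨r₀, hr₀, hr₀m⟩ := fin_min hr
  refine int_of_near (dn_p hinj σ) hP hw e₀ hr₀ fun e he => ?_
  exact mv_ioL (hw_p hinj σ) (hd e) hw fun i =>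
    hrb i _ fun a => (he i a).trans_le (hr₀m i)

/-- **the real place and p-adic places** -/
theorem int_r [Nonempty ι] (hinj : Function.Injective p) (σ : ∀ i, K →+* ℚ_[p i]) (τ : K →+* ℝ)
    {f : MvPolynomial α K} (hd : ∀ e z : α → K, (rst f z e).natDegree ≤ 4)
    {x₀ : ∀ v, α → Lv p v} {y₀ : ∀ v, Lv p v}
    (hP : ∀ v, onX (MvPolynomial.map (sv σ τ v) f) (x₀ v) (y₀ v)) (hw : ∀ v, y₀ v ≠ 0)
    (hD : ∃ e : α → ℝ, Tq (MvPolynomial.map τ f) e (x₀ none) ≠ 0)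
    (h : ∀ i, ∃ e : α → ℚ_[p i], IOt (th (MvPolynomial.map (σ i) f) e (x₀ (some i))
      (y₀ (some i)))) :
    IntL (sv σ τ) f x₀ y₀ := by
  classical
  choose e₁ he₁ using h
  obtain ⟨e₂, he₂⟩ := hD
  choose r hr hrb using fun i => dir_open (f := MvPolynomial.map (σ i) f) (hw (some i)) (he₁ i)
  obtain ⟨r₁, hr₁, hr₁m⟩ := fin_min hr
  obtain ⟨r₂, hr₂, hr₂b⟩ := ball_of ((Tq_cont_e (MvPolynomial.map τ f) (x₀ none)).tendsto e₂
    |>.eventually_ne he₂)
  let e₀ : ∀ v, α → Lv p v := fun v => match v with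
    | none => e₂
    | some i => e₁ i
  refine int_of_near (dn_all hinj σ τ) hP hw e₀ (lt_min hr₁ hr₂) fun e he => ?_
  refine mv_ior hinj (hd e) hP hw ?_ fun i => ?_
  · exact hr₂b _ fun a => (he none a).trans_le (min_le_right _ _)
  · exact hrb i _ fun a => (he (some i) a).trans_le ((min_le_left _ _).trans (hr₁m i))

end places

end Pool.Agent.Y718.CL
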